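import Mathlib
import Pool.Agent.H852.NB.Round

set_option autoImplicit false

/-!
# Merging of points with weights in a grid
-/

namespace Pool.Agent.H852.NB

open MvPolynomial Pool.Agent.H932R5 Pool.Agent.H519R3.AC

universe u

variable {K : Type u} [Field K]

/-- The weights of the grid. -/
noncomputable def gv (B : ℕ) : Option (ℕ × ℕ) → ℝ
  | none => B
  | some (j, q) => B / (2 ^ j * q)

theorem gv_nonneg (B : ℕ) (l : Option (ℕ × ℕ)) : 0 ≤ gv B l := by
  rcases l with _ | ⟨j, q⟩
  · exact Nat.cast_nonneg B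
  · unfold gv
    positivity

/-- Bounds for the leftovers. -/
noncomputable def bd (B : ℕ) : ℕ → ℝ
  | 0 => 2 * (B : ℝ) ^ 2
  | j + 1 => 3 / 2 ^ (j + 1)

theorem sum_bd (B J : ℕ) : ∑ j ∈ Finset.range J, bd B j ≤ 2 * (B : ℝ) ^ 2 + 3 := by
  rcases J with _ | J
  · simp only [Finset.range_zero, Finset.sum_empty]
    positivity
  · have h : ∑ j ∈ Finset.range (J + 1), bd B j = 2 * (B : ℝ) ^ 2 + 3 - 3 / 2 ^ J := by
      induction J with
      | zero => simp [bd]
      | succ J ih =>
        rw [Finset.sum_range_succ, ih]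
        show _ + 3 / (2 : ℝ) ^ (J + 1) = _
        rw [pow_succ]
        field_simp
        ring
    rw [h]
    have : (0 : ℝ) ≤ 3 / 2 ^ J := by positivity
    linarith

theorem leftover {B : ℕ} (hB : 2 ≤ B) {ι : Type} [Fintype ι] (lab : ι → Option (ℕ × ℕ))
    (hlab : ∀ i j q, lab i = some (j, q) → B ≤ q ∧ q ≤ 2 * B)
    (h1 : ∀ j q, (Finset.univ.filter fun i => lab i = some (j + 1, q)).card ≤ 3)
    (h2 : ∀ q, B ≤ q → q ≤ 2 * B →
      (Finset.univ.filter fun i => lab i = some (0, q)).card ≤ q ^ 2) :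
    ∑ i with ¬ (lab i = none), gv B (lab i) ≤ ((B : ℝ) + 1) * (2 * (B : ℝ) ^ 2 + 3) := by
  classical
  have hBR : (2 : ℝ) ≤ B := by exact_mod_cast hB
  obtain ⟨J, hJ⟩ : ∃ J, ∀ i j q, lab i = some (j, q) → j < J := by
    refine ⟨Finset.univ.sup (fun i => ((lab i).elim 0 (fun x => x.1))) + 1, fun i j q h => ?_⟩
    have h3 := Finset.le_sup (f := fun i => ((lab i).elim 0 (fun x => x.1))) (Finset.mem_univ i)
    simp only [h, Option.elim] at h3
    exact Nat.lt_succ_of_le h3
  obtain ⟨P, hP⟩ : ∃ P : Finset (ℕ × ℕ), P = Finset.range J ×ˢ Finset.Icc B (2 * B) := ⟨_, rfl⟩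
  have hmaps : ∀ i ∈ Finset.univ.filter (fun i => ¬ (lab i = none)),
      lab i ∈ P.map ⟨some, Option.some_injective _⟩ := by
    intro i hi
    rw [Finset.mem_filter] at hi
    rcases hl : lab i with _ | ⟨j, q⟩
    · exact absurd hl hi.2
    · rw [Finset.mem_map]
      refine ⟨(j, q), ?_, rfl⟩
      rw [hP, Finset.mem_product, Finset.mem_range, Finset.mem_Icc]
      exact ⟨hJ i j q hl, hlab i j q hl⟩
  rw [← Finset.sum_fiberwise_of_maps_to hmaps, Finset.sum_map]
  have hb : ∀ x ∈ P, ∑ i ∈ Finset.univ.filter (fun i => ¬ (lab i = none)) with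
      lab i = (⟨some, Option.some_injective _⟩ : (ℕ × ℕ) ↪ Option (ℕ × ℕ)) x, gv B (lab i) ≤
      bd B x.1 := by
    rintro ⟨j, q⟩ hx
    rw [hP, Finset.mem_product, Finset.mem_range, Finset.mem_Icc] at hx
    obtain ⟨_, hq1, hq2⟩ := hx
    simp only at hq1 hq2
    have hqR : (B : ℝ) ≤ q := by exact_mod_cast hq1
    have hqR2 : (q : ℝ) ≤ 2 * B := by exact_mod_cast hq2
    have hq0 : (0 : ℝ) < q := by linarith
    have e1 : ∑ i ∈ Finset.univ.filter (fun i => ¬ (lab i = none)) with
        lab i = (⟨some, Option.some_injective _⟩ : (ℕ × ℕ) ↪ Option (ℕ × ℕ)) (j, q),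
          gv B (lab i) =
        ((Finset.univ.filter fun i => lab i = some (j, q)).card : ℝ) * gv B (some (j, q)) := by
      rw [← nsmul_eq_mul, ← Finset.sum_const]
      refine Finset.sum_congr ?_ fun i hi => ?_
      · ext i
        simp only [Finset.mem_filter, Finset.mem_univ, true_and]
        constructor
        · rintro ⟨_, h⟩
          exact h
        · intro h
          exact ⟨by rw [h]; exact Option.some_ne_none _, h⟩
      · rw [(Finset.mem_filter.1 hi).2]
    rw [e1]
    rcases j with _ | j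
    · have h3 : ((Finset.univ.filter fun i => lab i = some (0, q)).card : ℝ) ≤ (q : ℝ) ^ 2 := by
        exact_mod_cast h2 q hq1 hq2
      show _ * ((B : ℝ) / (2 ^ 0 * q)) ≤ 2 * (B : ℝ) ^ 2
      have h4 : (0 : ℝ) ≤ (B : ℝ) / (2 ^ 0 * q) := by positivity
      refine (mul_le_mul_of_nonneg_right h3 h4).trans ?_
      have h5 : (q : ℝ) ^ 2 * ((B : ℝ) / (2 ^ 0 * q)) = q * B := by
        field_simp
      rw [h5]
      nlinarith
    · have h3 : ((Finset.univ.filter fun i => lab i = some (j + 1, q)).card : ℝ) ≤ 3 := by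
        exact_mod_cast h1 j q
      show _ * ((B : ℝ) / (2 ^ (j + 1) * q)) ≤ 3 / 2 ^ (j + 1)
      have h4 : (0 : ℝ) ≤ (B : ℝ) / (2 ^ (j + 1) * q) := by positivity
      refine (mul_le_mul_of_nonneg_right h3 h4).trans ?_
      rw [mul_div_assoc', div_le_div_iff₀ (by positivity) (by positivity)]
      have h6 : (0 : ℝ) < 2 ^ (j + 1) := by positivity
      nlinarith
  refine (Finset.sum_le_sum hb).trans ?_
  rw [hP, Finset.sum_product]
  simp only [Finset.sum_const, Nat.card_Icc, nsmul_eq_mul]
  rw [← Finset.mul_sum]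
  have h7 : (((2 * B + 1 - B : ℕ)) : ℝ) = (B : ℝ) + 1 := by
    have : 2 * B + 1 - B = B + 1 := by omega
    rw [this]
    push_cast
    ring
  rw [h7]
  exact mul_le_mul_of_nonneg_left (sum_bd B J) (by positivity)

theorem core [Infinite K] {B : ℕ} (hB : 2 ≤ B) (N : ℕ) :
    ∀ (ι : Type) [Fintype ι] (lab : ι → Option (ℕ × ℕ)),
    (∀ i j q, lab i = some (j, q) → B ≤ q ∧ q ≤ 2 * B) → Fintype.card ι = N →
    Nf K (fun i => gv B (lab i)) (Real.sqrt (∑ i, gv B (lab i) ^ 2) +
      ((B : ℝ) + ((B : ℝ) + 1) * (2 * (B : ℝ) ^ 2 + 3))) := by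
  classical
  have hBR : (2 : ℝ) ≤ B := by exact_mod_cast hB
  induction N using Nat.strong_induction_on with
  | _ N ih =>
    intro ι _ lab hlab hN
    have key : ∀ (S : Finset ι) (k : ℕ) (v : Option (ℕ × ℕ)), 2 ≤ k → S.card = k ^ 2 →
        (∀ j q, v = some (j, q) → B ≤ q ∧ q ≤ 2 * B) →
        (∀ i ∈ S, gv B (lab i) * k = gv B v) →
        Nf K (fun i => gv B (lab i)) (Real.sqrt (∑ i, gv B (lab i) ^ 2) +
          ((B : ℝ) + ((B : ℝ) + 1) * (2 * (B : ℝ) ^ 2 + 3))) := by
      intro S k v hk hS hv hSv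
      have h4 : 4 ≤ k ^ 2 := by nlinarith
      have hkR : (2 : ℝ) ≤ k := by exact_mod_cast hk
      obtain ⟨lab', hlab'⟩ : ∃ lab' : Option {i // i ∉ S} → Option (ℕ × ℕ),
          lab' = fun o => o.elim v (fun i => lab i.1) := ⟨_, rfl⟩
      have hcomp : (Finset.univ.filter fun i => i ∉ S) = Sᶜ := by
        ext i
        simp
      have hcard : Fintype.card (Option {i // i ∉ S}) < N := by
        rw [Fintype.card_option, Fintype.card_subtype, hcomp, Finset.card_compl, hS, hN]
        have h5 := Finset.card_le_univ S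
        rw [hS, hN] at h5
        omega
      have hsum : ∑ o, gv B (lab' o) ^ 2 = ∑ i, gv B (lab i) ^ 2 := by
        rw [Fintype.sum_option, ← Finset.sum_add_sum_compl S]
        congr 1
        · have h5 : ∀ i ∈ S, gv B (lab i) ^ 2 = gv B v ^ 2 / (k : ℝ) ^ 2 := by
            intro i hi
            rw [← hSv i hi, mul_pow]
            field_simp
          rw [Finset.sum_congr rfl h5, Finset.sum_const, hS, nsmul_eq_mul, hlab']
          push_cast
          have h6 : (k : ℝ) ≠ 0 := by positivity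
          simp only [Option.elim]
          field_simp
        · rw [hlab']
          exact (Finset.sum_subtype Sᶜ (fun i => by simp) (fun i => gv B (lab i) ^ 2)).symm
      have h := ih _ hcard (Option {i // i ∉ S}) lab' (by
        intro o j q ho
        rw [hlab'] at ho
        cases o with
        | none => exact hv j q ho
        | some i => exact hlab i.1 j q ho) rfl
      rw [hsum] at h
      refine Nf.merge (fun i => gv_nonneg B _) S (k := k) (by omega) hS.le (gv_nonneg B v)
        (fun i hi => (hSv i hi).le) ?_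
      have h7 : (fun o : Option {i // i ∉ S} => o.elim (gv B v) (fun i => gv B (lab i.1))) =
          fun o => gv B (lab' o) := by
        funext o
        rw [hlab']
        cases o <;> rfl
      rw [h7]
      exact h
    by_cases h1 : ∃ j q, 4 ≤ (Finset.univ.filter fun i => lab i = some (j + 1, q)).card
    · obtain ⟨j, q, h1⟩ := h1
      obtain ⟨S, hS, hSc⟩ := Finset.exists_subset_card_eq h1
      have hSl : ∀ i ∈ S, lab i = some (j + 1, q) := fun i hi => (Finset.mem_filter.1 (hS hi)).2
      obtain ⟨i0, hi0⟩ : S.Nonempty := Finset.card_pos.1 (by omega)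
      have hq := hlab i0 _ _ (hSl i0 hi0)
      have hq0 : (q : ℝ) ≠ 0 := by
        have : 0 < q := by omega
        positivity
      refine key S 2 (some (j, q)) le_rfl (by rw [hSc]; norm_num) (fun j' q' h => ?_) (fun i hi => ?_)
      · have h8 := Option.some.inj h
        rw [Prod.mk.injEq] at h8
        rw [← h8.2]
        exact hq
      · rw [hSl i hi]
        show (B : ℝ) / (2 ^ (j + 1) * q) * ((2 : ℕ) : ℝ) = B / (2 ^ j * q)
        rw [pow_succ]
        push_cast
        field_simp
    by_cases h2 : ∃ q, B ≤ q ∧ q ≤ 2 * B ∧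
        q ^ 2 ≤ (Finset.univ.filter fun i => lab i = some (0, q)).card
    · obtain ⟨q, hq1, hq2, h2⟩ := h2
      obtain ⟨S, hS, hSc⟩ := Finset.exists_subset_card_eq h2
      have hSl : ∀ i ∈ S, lab i = some (0, q) := fun i hi => (Finset.mem_filter.1 (hS hi)).2
      have hq0 : (q : ℝ) ≠ 0 := by
        have : 0 < q := by omega
        positivity
      refine key S q none (by omega) hSc (fun j' q' h => ?_) (fun i hi => ?_)
      · exact absurd h.symm (Option.some_ne_none _)
      · rw [hSl i hi]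
        show (B : ℝ) / (2 ^ 0 * q) * q = B
        field_simp
    push Not at h1 h2
    obtain ⟨s, hs⟩ : ∃ s, s = Fintype.card {i // lab i = none} := ⟨_, rfl⟩
    obtain ⟨k, hk⟩ : ∃ k, k = Nat.sqrt s + 1 := ⟨_, rfl⟩
    have hk2 : s ≤ k ^ 2 := by
      rw [hk]
      exact (Nat.lt_succ_sqrt' s).le
    have hkR : (k : ℝ) ≤ Real.sqrt s + 1 := by
      rw [hk]
      push_cast
      have := Real.nat_sqrt_le_real_sqrt (a := s)
      linarith
    have h3 : Nf K (fun i : {i // lab i = none} => gv B (lab i.1)) (B * k) := by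
      have h4 := (nf_card (K := K) (κ := {i // lab i = none}) (k := k) (by omega)
        (by rw [← hs]; exact hk2)).scale (a := (B : ℝ)) (by positivity)
      refine h4.mono (fun i => ?_) le_rfl
      rw [i.2, mul_one]
      exact le_rfl
    have h5 := Nf.add (t := fun i => gv B (lab i)) (fun i => gv_nonneg B _)
      (fun i => lab i = none) h3
    refine h5.mono (fun i => le_rfl) ?_
    have h6 := leftover hB lab hlab (fun j q => by
      have := h1 j q
      omega) (fun q hq1 hq2 => (h2 q hq1 hq2).le)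
    have h7 : (B : ℝ) * Real.sqrt s ≤ Real.sqrt (∑ i, gv B (lab i) ^ 2) := by
      rw [← Real.sqrt_sq (show (0 : ℝ) ≤ B by positivity), ← Real.sqrt_mul (by positivity)]
      refine Real.sqrt_le_sqrt ?_
      have h8 : ∑ i with lab i = none, gv B (lab i) ^ 2 = s * (B : ℝ) ^ 2 := by
        rw [hs, Fintype.card_subtype, ← nsmul_eq_mul, ← Finset.sum_const]
        refine Finset.sum_congr rfl fun i hi => ?_
        rw [(Finset.mem_filter.1 hi).2]
        rfl
      rw [mul_comm, ← h8]
      exact Finset.sum_le_sum_of_subset_of_nonneg (Finset.filter_subset _ _)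
        (fun i _ _ => sq_nonneg _)
    have h9 : (B : ℝ) * k ≤ B * (Real.sqrt s + 1) := mul_le_mul_of_nonneg_left hkR (by positivity)
    linarith

end Pool.Agent.H852.NB
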