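import Mathlib
import Pool.Agent.H852.NB.Core

set_option autoImplicit false

/-!
# All weights
-/

namespace Pool.Agent.H852.NB

open MvPolynomial Pool.Agent.H932R5 Pool.Agent.H519R3.AC

universe u

variable {K : Type u} [Field K]

theorem exists_label {B : ℕ} (hB : 2 ≤ B) {t : ℝ} (h0 : 0 < t) (h1 : t ≤ 1) :
    ∃ j q : ℕ, B ≤ q ∧ q ≤ 2 * B ∧ t ≤ gv B (some (j, q)) ∧
      gv B (some (j, q)) ≤ (1 + 1 / (B : ℝ)) * t := by
  have hBR : (2 : ℝ) ≤ B := by exact_mod_cast hB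
  have hB0 : (0 : ℝ) < B := by linarith
  obtain ⟨j, hj1, hj2⟩ := exists_nat_pow_near_of_lt_one h0 h1 (y := (1 / 2 : ℝ)) (by norm_num)
    (by norm_num)
  obtain ⟨p, hp⟩ : ∃ p : ℝ, p = 2 ^ j := ⟨_, rfl⟩
  have hp0 : 0 < p := by rw [hp]; positivity
  obtain ⟨v, hv⟩ : ∃ v : ℝ, v = p * t := ⟨_, rfl⟩
  have hv0 : 0 < v := by rw [hv]; positivity
  have hv1 : v ≤ 1 := by
    rw [hv, hp]
    calc (2 : ℝ) ^ j * t ≤ 2 ^ j * (1 / 2) ^ j := mul_le_mul_of_nonneg_left hj2 (by positivity)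
      _ = 1 := by rw [← mul_pow]; norm_num
  have hv2 : 1 < 2 * v := by
    rw [hv, hp]
    have h2 : (2 : ℝ) ^ (j + 1) * (1 / 2) ^ (j + 1) < 2 ^ (j + 1) * t :=
      mul_lt_mul_of_pos_left hj1 (by positivity)
    rw [← mul_pow] at h2
    have h3 : ((2 : ℝ) * (1 / 2)) ^ (j + 1) = 1 := by norm_num
    rw [h3, pow_succ] at h2
    linarith
  obtain ⟨q, hq⟩ : ∃ q : ℕ, q = ⌊(B : ℝ) / v⌋₊ := ⟨_, rfl⟩
  have hq1 : (q : ℝ) ≤ B / v := by
    rw [hq]
    exact Nat.floor_le (by positivity)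
  have hq2 : (B : ℝ) / v < q + 1 := by
    rw [hq]
    exact Nat.lt_floor_add_one _
  have hBq : B ≤ q := by
    rw [hq]
    refine Nat.le_floor ?_
    rw [le_div_iff₀ hv0]
    nlinarith
  have hqB : q ≤ 2 * B := by
    have h2 : (B : ℝ) / v < 2 * B := by
      rw [div_lt_iff₀ hv0]
      nlinarith
    have h3 : (q : ℝ) < ((2 * B : ℕ) : ℝ) := by
      push_cast
      linarith
    exact_mod_cast h3.le
  have hqR : (B : ℝ) ≤ q := by exact_mod_cast hBq
  have hq0 : (0 : ℝ) < q := by linarith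
  rw [le_div_iff₀ hv0] at hq1
  rw [div_lt_iff₀ hv0] at hq2
  refine ⟨j, q, hBq, hqB, ?_, ?_⟩
  · show t ≤ (B : ℝ) / (2 ^ j * q)
    rw [← hp, le_div_iff₀ (by positivity)]
    calc t * (p * q) = q * v := by rw [hv]; ring
      _ ≤ B := hq1
  · show (B : ℝ) / (2 ^ j * q) ≤ _
    rw [← hp, div_le_iff₀ (by positivity)]
    have h2 : (1 + 1 / (B : ℝ)) * t * (p * q) = (1 + 1 / (B : ℝ)) * q * v := by rw [hv]; ring
    rw [h2]
    refine hq2.le.trans (mul_le_mul_of_nonneg_right ?_ hv0.le)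
    have h3 : 1 ≤ 1 / (B : ℝ) * q := by
      rw [one_div, ← div_eq_inv_mul, le_div_iff₀ hB0]
      linarith
    linarith

theorem round_pos [Infinite K] {B : ℕ} (hB : 2 ≤ B) {ι : Type} [Fintype ι] {t : ι → ℝ}
    (h0 : ∀ i, 0 < t i) (h1 : ∀ i, t i ≤ 1) :
    Nf K t ((1 + 1 / (B : ℝ)) * Real.sqrt (∑ i, t i ^ 2) + 5 * (B : ℝ) ^ 3) := by
  have hBR : (2 : ℝ) ≤ B := by exact_mod_cast hB
  choose j q hq1 hq2 hl hu using fun i => exists_label hB (h0 i) (h1 i)
  have h := core (K := K) hB (Fintype.card ι) ι (fun i => some (j i, q i)) (fun i j' q' h => by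
    have h8 := Option.some.inj h
    rw [Prod.mk.injEq] at h8
    rw [← h8.2]
    exact ⟨hq1 i, hq2 i⟩) rfl
  refine h.mono hl ?_
  have h2 : Real.sqrt (∑ i, gv B (some (j i, q i)) ^ 2) ≤
      (1 + 1 / (B : ℝ)) * Real.sqrt (∑ i, t i ^ 2) := by
    rw [← Real.sqrt_sq (show 0 ≤ 1 + 1 / (B : ℝ) by positivity), ← Real.sqrt_mul (by positivity)]
    refine Real.sqrt_le_sqrt ?_
    rw [Finset.mul_sum]
    refine Finset.sum_le_sum fun i _ => ?_
    rw [← mul_pow]
    exact pow_le_pow_left₀ (gv_nonneg B _) (hu i) 2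
  have h3 : (B : ℝ) + ((B : ℝ) + 1) * (2 * (B : ℝ) ^ 2 + 3) ≤ 5 * (B : ℝ) ^ 3 := by
    nlinarith [mul_nonneg (mul_nonneg (show (0 : ℝ) ≤ B by positivity)
      (show (0 : ℝ) ≤ B by positivity)) (sub_nonneg.2 hBR), mul_nonneg
      (show (0 : ℝ) ≤ B by positivity) (sub_nonneg.2 hBR), pow_le_pow_left₀ (by norm_num) hBR 3]
  linarith

/-- **The weighted inequality**, for all weights, with a constant independent of the number of
points. -/
theorem round_nf [Infinite K] {B : ℕ} (hB : 2 ≤ B) {ι : Type} [Fintype ι] {t : ι → ℝ} {T : ℝ}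
    (hT0 : 0 ≤ T) (h0 : ∀ i, 0 ≤ t i) (h1 : ∀ i, t i ≤ T) :
    Nf K t ((1 + 1 / (B : ℝ)) * Real.sqrt (∑ i, t i ^ 2) + 5 * (B : ℝ) ^ 3 * T) := by
  classical
  have hBR : (2 : ℝ) ≤ B := by exact_mod_cast hB
  rcases hT0.eq_or_lt with hT | hT
  · intro w d hd
    exfalso
    have h2 : ∑ i, t i * (w i : ℝ) = 0 := Finset.sum_eq_zero fun i _ => by
      have : t i = 0 := le_antisymm ((h1 i).trans hT.ge) (h0 i)
      rw [this, zero_mul]
    rw [h2, ← hT, mul_zero, add_zero] at hd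
    have h3 : 0 ≤ (1 + 1 / (B : ℝ)) * Real.sqrt (∑ i, t i ^ 2) * d := by positivity
    linarith
  · have h2 := (round_pos (K := K) hB (t := fun i : {i // 0 < t i} => t i.1 / T)
      (fun i => div_pos i.2 hT) (fun i => (div_le_one hT).2 (h1 i.1))).scale (a := T) hT.le
    have h3 : Nf K (fun i : {i // 0 < t i} => t i.1)
        ((1 + 1 / (B : ℝ)) * Real.sqrt (∑ i, t i ^ 2) + 5 * (B : ℝ) ^ 3 * T) := by
      refine h2.mono (fun i => ?_) ?_
      · rw [mul_div_cancel₀ _ hT.ne']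
      · have h4 : T * Real.sqrt (∑ i : {i // 0 < t i}, (t i.1 / T) ^ 2) ≤
            Real.sqrt (∑ i, t i ^ 2) := by
          nth_rewrite 1 [← Real.sqrt_sq hT.le]
          rw [← Real.sqrt_mul (by positivity)]
          refine Real.sqrt_le_sqrt ?_
          rw [Finset.mul_sum]
          have h5 : ∑ i : {i // 0 < t i}, T ^ 2 * (t i.1 / T) ^ 2 =
              ∑ i with 0 < t i, t i ^ 2 := by
            rw [Finset.sum_subtype (p := fun i => 0 < t i) (Finset.univ.filter fun i => 0 < t i)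
              (fun i => by simp) (fun i => t i ^ 2)]
            refine Finset.sum_congr rfl fun i _ => ?_
            rw [← mul_pow, mul_div_cancel₀ _ hT.ne']
          rw [h5]
          exact Finset.sum_le_sum_of_subset_of_nonneg (Finset.filter_subset _ _)
            (fun i _ _ => sq_nonneg _)
        have h6 : 0 ≤ 1 + 1 / (B : ℝ) := by positivity
        have h7 := mul_le_mul_of_nonneg_left h4 h6
        nlinarith
    have h4 := Nf.add h0 (fun i => 0 < t i) h3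
    refine h4.mono (fun i => le_rfl) ?_
    have h5 : ∑ i with ¬ 0 < t i, t i ≤ 0 := Finset.sum_nonpos fun i hi => by
      have := (Finset.mem_filter.1 hi).2
      linarith
    linarith

end Pool.Agent.H852.NB
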