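import Mathlib
import Pool.Agent.H852.NB.General
import Pool.Agent.H852.QP.Neg

set_option autoImplicit false

/-!
# From weighted inequalities to curves through very general points
-/

namespace Pool.Agent.H852.NB

open MvPolynomial Pool.Agent.H932R5 Pool.Agent.H519R3.AC

/-- A permutation of the homogeneous coordinates. -/
def rot : Fin 3 → Fin 3 := ![1, 2, 0]

theorem rot_inj : Function.Injective rot := by decide

theorem shift_deh_rot (P : Fin 2 → ℂ) (F : MvPolynomial (Fin 3) ℂ) :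
    shift (E := 1) P (deh ℂ 1 (rename rot F)) =
      aeval ![(X 0 : MvPolynomial (Fin 2) ℂ) + C (P 0), (X 1 : MvPolynomial (Fin 2) ℂ) + C (P 1),
        (1 : MvPolynomial (Fin 2) ℂ)] F := by
  have h : ((shift (E := 1) P).comp (deh ℂ 1)).comp (rename rot) =
      aeval ![(X 0 : MvPolynomial (Fin 2) ℂ) + C (P 0), (X 1 : MvPolynomial (Fin 2) ℂ) + C (P 1),
        (1 : MvPolynomial (Fin 2) ℂ)] := by
    refine MvPolynomial.algHom_ext fun i => ?_
    rw [AlgHom.comp_apply, AlgHom.comp_apply, rename_X, aeval_X]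
    fin_cases i
    · show shift (E := 1) P (deh ℂ 1 (X (0 : Fin 2).succ)) = _
      rw [deh_X, shift_X]
      rfl
    · show shift (E := 1) P (deh ℂ 1 (X (1 : Fin 2).succ)) = _
      rw [deh_X, shift_X]
      rfl
    · show shift (E := 1) P (deh ℂ 1 (X 0)) = _
      rw [deh_X0, map_one]
      rfl
  exact AlgHom.congr_fun h F

theorem no_curve {n : ℕ} {P : Fin n → Fin 2 → ℂ} {w : Fin n → ℕ} {d : ℕ}
    (h : EmptyAt (E := 1) w P d) {F : MvPolynomial (Fin 3) ℂ} (hF : F.IsHomogeneous d)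
    (hm : ∀ i, ∀ s ∈ (aeval
      ![(X 0 : MvPolynomial (Fin 2) ℂ) + C (P i 0), (X 1 : MvPolynomial (Fin 2) ℂ) + C (P i 1),
        (1 : MvPolynomial (Fin 2) ℂ)] F).support, w i ≤ s 0 + s 1) : F = 0 := by
  have hF' : (rename rot F).IsHomogeneous d := hF.rename_isHomogeneous
  have h1 : rename rot F = 0 := by
    refine deh_inj (E := 1) hF' (h _ ?_ (mem_mspan.1 (deh_mem hF')))
    rw [mem_Z]
    intro i
    rw [mem_pt_pow_iff]
    intro s hs
    rw [shift_deh_rot]
    by_contra hne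
    have h2 := hm i s (mem_support_iff.2 hne)
    rw [Finsupp.degree_eq_sum, Fin.sum_univ_two] at hs
    omega
  exact rename_injective rot rot_inj (by rw [h1, map_zero])

/-- A weighted inequality over the rational numbers holds for the curves through algebraically
independent points. -/
theorem curve_le {n : ℕ} {t : Fin n → ℝ} {c : ℝ} (h : Nf ℚ t c) {P : Fin n → Fin 2 → ℂ}
    (hP : AlgebraicIndependent ℚ (fun q : Fin n × Fin 2 => P q.1 q.2)) {w : Fin n → ℕ} {d : ℕ}
    {F : MvPolynomial (Fin 3) ℂ} (hF : F.IsHomogeneous d) (hF0 : F ≠ 0)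
    (hm : ∀ i, ∀ s ∈ (aeval
      ![(X 0 : MvPolynomial (Fin 2) ℂ) + C (P i 0), (X 1 : MvPolynomial (Fin 2) ℂ) + C (P i 1),
        (1 : MvPolynomial (Fin 2) ℂ)] F).support, w i ≤ s 0 + s 1) :
    ∑ i, t i * (w i : ℝ) ≤ c * d := by
  by_contra hcon
  push Not at hcon
  obtain ⟨x, hx⟩ := h w d hcon
  refine hF0 (no_curve (emptyAt_of_full (K := ℚ) (L := ℂ) (E := 1) (w := w) (d := d)
    ⟨x, fun f hf hfd => ?_⟩ hP) hF hm)
  exact emp_iff.1 hx f hf hfd

end Pool.Agent.H852.NB
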