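import Mathlib

set_option autoImplicit false

/-!
# Counting integers near a progression
-/

namespace Pool.Agent.H852.NB

/-- Natural numbers in an interval of length `l`. -/
theorem card_le_of_diff {S : Finset ℕ} {l : ℝ} (hl : 0 ≤ l)
    (h : ∀ a ∈ S, ∀ b ∈ S, (a : ℝ) - b ≤ l) : (S.card : ℝ) ≤ l + 1 := by
  rcases S.eq_empty_or_nonempty with h0 | h0
  · subst h0
    simp only [Finset.card_empty, Nat.cast_zero]
    linarith
  · have h1 : S ⊆ Finset.Icc (S.min' h0) (S.max' h0) := fun x hx =>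
      Finset.mem_Icc.2 ⟨S.min'_le x hx, S.le_max' x hx⟩
    have h2 := Finset.card_le_card h1
    rw [Nat.card_Icc] at h2
    have h3 := h _ (S.max'_mem h0) _ (S.min'_mem h0)
    have h4 : S.min' h0 ≤ S.max' h0 := S.min'_le _ (S.max'_mem h0)
    have h5 : (S.card : ℝ) ≤ ((S.max' h0 + 1 - S.min' h0 : ℕ) : ℝ) := by exact_mod_cast h2
    rw [Nat.cast_sub (by omega)] at h5
    push_cast at h5
    linarith

/-- Few integers `W` of an interval are such that `√n + 2 W / √n` is near an odd integer. -/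
theorem count_bad {ε s : ℝ} (hε : 0 < ε) (hε1 : ε ≤ 1) (hs : 1 / ε ≤ s) {A L : ℕ} (hL : s ≤ L)
    {B : Finset ℕ} (hB : ∀ W ∈ B, A ≤ W ∧ W < A + L)
    (hbad : ∀ W ∈ B, ∃ d : ℕ, |2 * (d : ℝ) + 3 - s - 2 * (W : ℝ) / s| < ε) :
    (B.card : ℝ) ≤ 6 * ε * L := by
  classical
  have hs1 : 1 ≤ ε * s := by
    rw [div_le_iff₀ hε] at hs
    linarith
  have hs0 : 0 < s := lt_of_lt_of_le (by positivity) hs
  choose! f hf using hbad
  -- the fibres
  have hfib : ∀ d ∈ B.image f, (B.filter fun W => f W = d).card ≤ ⌊ε * s⌋₊ + 1 := by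
    intro d _
    have h1 : ((B.filter fun W => f W = d).card : ℝ) ≤ ε * s + 1 := by
      refine card_le_of_diff (by positivity) fun a ha b hb => ?_
      rw [Finset.mem_filter] at ha hb
      have h2 := hf a ha.1
      have h3 := hf b hb.1
      rw [ha.2] at h2
      rw [hb.2] at h3
      rw [abs_lt] at h2 h3
      have h4 : 2 * (a : ℝ) / s - 2 * (b : ℝ) / s < 2 * ε := by linarith [h2.1, h3.2]
      have h5 : 2 * (a : ℝ) / s - 2 * (b : ℝ) / s = (2 * ((a : ℝ) - b)) / s := by ring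
      rw [h5, div_lt_iff₀ hs0] at h4
      nlinarith
    have h2 : (B.filter fun W => f W = d).card ≤ ⌊ε * s + 1⌋₊ := Nat.le_floor h1
    rwa [Nat.floor_add_one (by positivity)] at h2
  have h1 := Finset.card_le_mul_card_image B (⌊ε * s⌋₊ + 1) hfib
  have h2 : ((B.image f).card : ℝ) ≤ (L / s + ε) + 1 := by
    refine card_le_of_diff (by positivity) fun a ha b hb => ?_
    rw [Finset.mem_image] at ha hb
    obtain ⟨W, hW, rfl⟩ := ha
    obtain ⟨V, hV, rfl⟩ := hb
    have h3 := hf W hW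
    have h4 := hf V hV
    rw [abs_lt] at h3 h4
    have h5 : (W : ℝ) - V ≤ L := by
      have h6 := (hB W hW).2
      have h7 := (hB V hV).1
      have h8 : (W : ℝ) < A + L := by exact_mod_cast h6
      have h9 : (A : ℝ) ≤ V := by exact_mod_cast h7
      linarith
    have h6 : 2 * (W : ℝ) / s - 2 * (V : ℝ) / s ≤ 2 * (L / s) := by
      have h7 : 2 * (W : ℝ) / s - 2 * (V : ℝ) / s = 2 * (((W : ℝ) - V) / s) := by ring
      rw [h7]
      have h8 : ((W : ℝ) - V) / s ≤ L / s := div_le_div_of_nonneg_right h5 hs0.le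
      linarith
    linarith [h3.2, h4.1]
  have h3 : (B.card : ℝ) ≤ (ε * s + 1) * ((L / s + ε) + 1) := by
    have h4 : (B.card : ℝ) ≤ (((⌊ε * s⌋₊ + 1) * (B.image f).card : ℕ) : ℝ) := by exact_mod_cast h1
    refine h4.trans ?_
    push_cast
    have h5 : (⌊ε * s⌋₊ : ℝ) ≤ ε * s := Nat.floor_le (by positivity)
    exact mul_le_mul (by linarith) h2 (Nat.cast_nonneg _) (by positivity)
  have h4 : 1 ≤ (L : ℝ) / s := by
    rw [le_div_iff₀ hs0]
    linarith
  have h5 : (L / s + ε) + 1 ≤ 3 * ((L : ℝ) / s) := by linarith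
  calc (B.card : ℝ) ≤ (ε * s + 1) * ((L / s + ε) + 1) := h3
    _ ≤ (2 * (ε * s)) * (3 * ((L : ℝ) / s)) := mul_le_mul (by linarith) h5 (by positivity)
        (by positivity)
    _ = 6 * ε * L * (s / s) := by ring
    _ = 6 * ε * L := by rw [div_self hs0.ne', mul_one]

end Pool.Agent.H852.NB
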