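import Mathlib

set_option autoImplicit false

/-!
# Multiples of the square root of an integer near odd integers
-/

namespace Pool.Agent.H852.NB

theorem card_le_int {α : Type*} {S : Finset α} {f : α → ℤ} (hf : Set.InjOn f S) {l : ℝ}
    (hl : 0 ≤ l) (h : ∀ a ∈ S, ∀ b ∈ S, (f a : ℝ) - f b ≤ l) : (S.card : ℝ) ≤ l + 1 := by
  classical
  rcases S.eq_empty_or_nonempty with h0 | h0
  · subst h0
    simp only [Finset.card_empty, Nat.cast_zero]
    linarith
  · have hT0 : (S.image f).Nonempty := h0.image f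
    have hcard : (S.image f).card = S.card := Finset.card_image_of_injOn hf
    have h1 : S.image f ⊆ Finset.Icc ((S.image f).min' hT0) ((S.image f).max' hT0) := fun x hx =>
      Finset.mem_Icc.2 ⟨Finset.min'_le _ x hx, Finset.le_max' _ x hx⟩
    have h2 := Finset.card_le_card h1
    rw [Int.card_Icc, hcard] at h2
    obtain ⟨a, ha, ha'⟩ := Finset.mem_image.1 ((S.image f).max'_mem hT0)
    obtain ⟨b, hb, hb'⟩ := Finset.mem_image.1 ((S.image f).min'_mem hT0)
    rw [← ha', ← hb'] at h2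
    have h3 := h a ha b hb
    have h4 : f b ≤ f a := by
      rw [ha', hb']
      exact Finset.min'_le _ _ (Finset.max'_mem _ _)
    have h5 : (S.card : ℤ) ≤ f a + 1 - f b := by
      have h6 : (0 : ℤ) ≤ f a + 1 - f b := by omega
      have h7 : (S.card : ℤ) ≤ ((f a + 1 - f b).toNat : ℤ) := by exact_mod_cast h2
      rwa [Int.toNat_of_nonneg h6] at h7
    have h6 : (S.card : ℝ) ≤ ((f a + 1 - f b : ℤ) : ℝ) := by exact_mod_cast h5
    push_cast at h6
    linarith

/-- A good rational approximation of `√r`, not too good. -/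
theorem exists_approx {r : ℕ} (hr : ¬ IsSquare r) {Q : ℕ} (hQ : 0 < Q) :
    ∃ (q : ℕ) (p : ℤ), 0 < q ∧ q ≤ Q ∧ |q * Real.sqrt r - p| ≤ 1 / Q ∧
      1 ≤ 3 * (q * Real.sqrt r) * |q * Real.sqrt r - p| := by
  have hr1 : 1 ≤ r := by
    rcases Nat.eq_zero_or_pos r with h | h
    · exact absurd ⟨0, by simp [h]⟩ hr
    · exact h
  obtain ⟨q, hq0, hqQ, hq⟩ := Real.exists_nat_abs_mul_sub_round_le (Real.sqrt r) hQ
  have hQR : (0 : ℝ) < Q := by exact_mod_cast hQ
  have hrR : (1 : ℝ) ≤ r := by exact_mod_cast hr1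
  obtain ⟨p, hp⟩ : ∃ p : ℤ, p = round ((q : ℝ) * Real.sqrt r) := ⟨_, rfl⟩
  rw [← hp] at hq
  have hs1 : 1 ≤ Real.sqrt r := Real.one_le_sqrt.2 hrR
  have hss : Real.sqrt r * Real.sqrt r = r := Real.mul_self_sqrt (by linarith)
  have hqR : (1 : ℝ) ≤ q := by exact_mod_cast hq0
  have hqs : 1 ≤ q * Real.sqrt r := by nlinarith
  refine ⟨q, p, hq0, hqQ, hq.trans (one_div_le_one_div_of_le hQR (by linarith)), ?_⟩
  have hirr : Irrational (Real.sqrt r) := irrational_sqrt_natCast_iff.2 hr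
  have hne : (q : ℝ) * Real.sqrt r - p ≠ 0 := by
    have h1 : Irrational ((q : ℝ) * Real.sqrt r) := hirr.natCast_mul hq0.ne'
    intro h0
    exact (h1.ne_int p) (sub_eq_zero.1 h0)
  have habs : |(q : ℝ) * Real.sqrt r - p| ≤ 1 / 2 := by
    rw [hp]
    exact abs_sub_round _
  have habs' := abs_le.1 habs
  have hprod : ((q : ℝ) * Real.sqrt r - p) * (q * Real.sqrt r + p) =
      ((r * q ^ 2 - p ^ 2 : ℤ) : ℝ) := by
    push_cast
    linear_combination (q : ℝ) ^ 2 * hss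
  have hpos : 0 < (q : ℝ) * Real.sqrt r + p := by linarith [habs'.2]
  have hint : (r * q ^ 2 - p ^ 2 : ℤ) ≠ 0 := by
    intro h0
    rw [h0, Int.cast_zero] at hprod
    rcases mul_eq_zero.1 hprod with h | h
    · exact hne h
    · exact hpos.ne' h
  have h1 : (1 : ℝ) ≤ |((r * q ^ 2 - p ^ 2 : ℤ) : ℝ)| := by
    have h2 := Int.one_le_abs hint
    have h3 : ((1 : ℤ) : ℝ) ≤ ((|(r * q ^ 2 - p ^ 2 : ℤ)| : ℤ) : ℝ) := by exact_mod_cast h2
    rw [Int.cast_one, Int.cast_abs] at h3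
    exact h3
  rw [← hprod, abs_mul, abs_of_pos hpos] at h1
  have h2 : (q : ℝ) * Real.sqrt r + p ≤ 3 * (q * Real.sqrt r) := by linarith [habs'.1]
  have h3 := mul_le_mul_of_nonneg_left h2 (abs_nonneg ((q : ℝ) * Real.sqrt r - p))
  linarith

/-- For a non-square `r` few `m < M` are such that `√r (2 m + 1)` is near an odd integer. -/
theorem count_uniform {r : ℕ} (hr : ¬ IsSquare r) {η : ℝ} (hη0 : 0 < η) (hη1 : η ≤ 1) {Q : ℕ}
    (hQ : 1 / η ≤ Q) {M : ℕ} (hM : 12 * Real.sqrt r * Q ^ 2 ≤ M) {B : Finset ℕ}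
    (hB : ∀ m ∈ B, m < M)
    (hbad : ∀ m ∈ B, ∃ d : ℕ, |2 * (d : ℝ) + 3 - Real.sqrt r - 2 * (Real.sqrt r * m)| < η) :
    (B.card : ℝ) ≤ 3 * η * M := by
  classical
  have hQR : (0 : ℝ) < Q := lt_of_lt_of_le (by positivity) hQ
  have hQ0 : 0 < Q := by exact_mod_cast hQR
  obtain ⟨q, p, hq0, hqQ, hδ1, hδ2⟩ := exists_approx hr hQ0
  obtain ⟨s, hs⟩ : ∃ s, s = Real.sqrt r := ⟨_, rfl⟩
  rw [← hs] at hδ1 hδ2 hM hbad
  have hs0 : 0 ≤ s := by rw [hs]; exact Real.sqrt_nonneg _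
  obtain ⟨δ', hδ'⟩ : ∃ δ' : ℝ, δ' = q * s - p := ⟨_, rfl⟩
  rw [← hδ'] at hδ1 hδ2
  have hqR : (0 : ℝ) < q := by exact_mod_cast hq0
  have hqQR : (q : ℝ) ≤ Q := by exact_mod_cast hqQ
  have hδ0 : 0 < |δ'| := by
    rcases (abs_nonneg δ').eq_or_lt with h | h
    · rw [← h, mul_zero] at hδ2
      linarith
    · exact h
  have hδη : |δ'| ≤ η := by
    refine hδ1.trans ?_
    rw [div_le_iff₀ hQR]
    rw [div_le_iff₀ hη0] at hQ
    linarith
  choose! f hf using hbad
  let g : ℕ → ℕ × ℤ := fun m => (m % q, (f m : ℤ) + 1 - p * ((m / q : ℕ) : ℤ))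
  -- the basic inequality
  have key : ∀ m ∈ B, |2 * (((g m).2 : ℤ) : ℝ) + 1 - s * (2 * ((m % q : ℕ) : ℝ) + 1) -
      2 * δ' * ((m / q : ℕ) : ℝ)| < η := by
    intro m hm
    have h1 := hf m hm
    have h2 : ((m % q : ℕ) : ℝ) + q * ((m / q : ℕ) : ℝ) = m := by exact_mod_cast Nat.mod_add_div m q
    have h3 : 2 * (((g m).2 : ℤ) : ℝ) + 1 - s * (2 * ((m % q : ℕ) : ℝ) + 1) -
        2 * δ' * ((m / q : ℕ) : ℝ) = 2 * (f m : ℝ) + 3 - s - 2 * (s * m) := by
      show 2 * ((((f m : ℤ) + 1 - p * ((m / q : ℕ) : ℤ)) : ℤ) : ℝ) + 1 -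
        s * (2 * ((m % q : ℕ) : ℝ) + 1) - 2 * δ' * ((m / q : ℕ) : ℝ) = _
      obtain ⟨j, hj⟩ : ∃ j : ℕ, j = m / q := ⟨_, rfl⟩
      obtain ⟨c, hc⟩ : ∃ c : ℕ, c = m % q := ⟨_, rfl⟩
      rw [← hj, ← hc] at h2 ⊢
      rw [hδ', ← h2]
      push_cast
      ring
    rw [h3]
    exact h1
  -- the fibres of `g`
  have hfib : ∀ x ∈ B.image g, (B.filter fun m => g m = x).card ≤ ⌊η / |δ'|⌋₊ + 1 := by
    intro x _
    have h1 : ((B.filter fun m => g m = x).card : ℝ) ≤ η / |δ'| + 1 := by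
      refine card_le_int (f := fun m => ((m / q : ℕ) : ℤ)) (fun a ha b hb hab => ?_)
        (by positivity) fun a ha b hb => ?_
      · have ha' := (Finset.mem_filter.1 ha).2
        have hb' := (Finset.mem_filter.1 hb).2
        have h2 : a % q = b % q := by
          have := congrArg Prod.fst (ha'.trans hb'.symm)
          exact this
        have h3 : a / q = b / q := Nat.cast_injective (R := ℤ) hab
        rw [← Nat.mod_add_div a q, ← Nat.mod_add_div b q, h2, h3]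
      · have ha' := Finset.mem_filter.1 ha
        have hb' := Finset.mem_filter.1 hb
        have h2 := key a ha'.1
        have h3 := key b hb'.1
        have h4 : a % q = b % q := by
          have := congrArg Prod.fst (ha'.2.trans hb'.2.symm)
          exact this
        have h5 : (g a).2 = (g b).2 := congrArg Prod.snd (ha'.2.trans hb'.2.symm)
        rw [h4, h5] at h2
        rw [abs_lt] at h2 h3
        have h6 : |δ' * (((a / q : ℕ) : ℝ) - ((b / q : ℕ) : ℝ))| ≤ η := by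
          rw [abs_le]
          constructor <;> nlinarith [h2.1, h2.2, h3.1, h3.2]
        rw [abs_mul] at h6
        show (((a / q : ℕ) : ℤ) : ℝ) - (((b / q : ℕ) : ℤ) : ℝ) ≤ η / |δ'|
        rw [Int.cast_natCast, Int.cast_natCast, le_div_iff₀ hδ0]
        have h7 : ((a / q : ℕ) : ℝ) - ((b / q : ℕ) : ℝ) ≤
            |((a / q : ℕ) : ℝ) - ((b / q : ℕ) : ℝ)| := le_abs_self _
        nlinarith
    have h2 : (B.filter fun m => g m = x).card ≤ ⌊η / |δ'| + 1⌋₊ := Nat.le_floor h1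
    rwa [Nat.floor_add_one (by positivity)] at h2
  have h1 := Finset.card_le_mul_card_image B (⌊η / |δ'|⌋₊ + 1) hfib
  -- the size of the image
  have hfib2 : ∀ c ∈ (B.image g).image Prod.fst,
      ((B.image g).filter fun x => x.1 = c).card ≤ ⌊|δ'| * (M / q) + η⌋₊ + 1 := by
    intro c _
    have h2 : (((B.image g).filter fun x => x.1 = c).card : ℝ) ≤ (|δ'| * (M / q) + η) + 1 := by
      refine card_le_int (f := Prod.snd) (fun a ha b hb hab => ?_) (by positivity)
        fun a ha b hb => ?_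
      · have ha' := (Finset.mem_filter.1 ha).2
        have hb' := (Finset.mem_filter.1 hb).2
        exact Prod.ext (ha'.trans hb'.symm) hab
      · have ha' := Finset.mem_filter.1 ha
        have hb' := Finset.mem_filter.1 hb
        obtain ⟨m, hm, rfl⟩ := Finset.mem_image.1 ha'.1
        obtain ⟨n, hn, rfl⟩ := Finset.mem_image.1 hb'.1
        have h3 := key m hm
        have h4 := key n hn
        have h5 : m % q = n % q := ha'.2.trans hb'.2.symm
        rw [h5] at h3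
        rw [abs_lt] at h3 h4
        have hjm : ((m / q : ℕ) : ℝ) ≤ M / q := by
          refine Nat.cast_div_le.trans (div_le_div_of_nonneg_right ?_ hqR.le)
          exact_mod_cast (hB m hm).le
        have hjn : ((n / q : ℕ) : ℝ) ≤ M / q := by
          refine Nat.cast_div_le.trans (div_le_div_of_nonneg_right ?_ hqR.le)
          exact_mod_cast (hB n hn).le
        have hjm0 : (0 : ℝ) ≤ ((m / q : ℕ) : ℝ) := Nat.cast_nonneg _
        have hjn0 : (0 : ℝ) ≤ ((n / q : ℕ) : ℝ) := Nat.cast_nonneg _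
        have h6 : δ' * (((m / q : ℕ) : ℝ) - ((n / q : ℕ) : ℝ)) ≤ |δ'| * (M / q) := by
          refine (le_abs_self _).trans ?_
          rw [abs_mul]
          refine mul_le_mul_of_nonneg_left ?_ (abs_nonneg _)
          rw [abs_le]
          constructor <;> linarith
        nlinarith [h3.2, h4.1]
    have h3 : ((B.image g).filter fun x => x.1 = c).card ≤ ⌊(|δ'| * (M / q) + η) + 1⌋₊ :=
      Nat.le_floor h2
    rwa [Nat.floor_add_one (by positivity)] at h3
  have h2 := Finset.card_le_mul_card_image (B.image g) (⌊|δ'| * (M / q) + η⌋₊ + 1) hfib2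
  have h3 : ((B.image g).image Prod.fst).card ≤ q := by
    have h4 : (B.image g).image Prod.fst ⊆ Finset.range q := by
      intro c hc
      obtain ⟨x, hx, rfl⟩ := Finset.mem_image.1 hc
      obtain ⟨m, _, rfl⟩ := Finset.mem_image.1 hx
      exact Finset.mem_range.2 (Nat.mod_lt m hq0)
    have h5 := Finset.card_le_card h4
    rwa [Finset.card_range] at h5
  have hA : (B.card : ℝ) ≤ (η / |δ'| + 1) * (((|δ'| * (M / q) + η) + 1) * q) := by
    have h4 : B.card ≤ (⌊η / |δ'|⌋₊ + 1) * ((⌊|δ'| * (M / q) + η⌋₊ + 1) * q) :=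
      h1.trans (Nat.mul_le_mul_left _ (h2.trans (Nat.mul_le_mul_left _ h3)))
    have h5 : (B.card : ℝ) ≤
        (((⌊η / |δ'|⌋₊ + 1) * ((⌊|δ'| * (M / q) + η⌋₊ + 1) * q) : ℕ) : ℝ) := by
      exact_mod_cast h4
    refine h5.trans ?_
    push_cast
    have h6 : (⌊η / |δ'|⌋₊ : ℝ) ≤ η / |δ'| := Nat.floor_le (by positivity)
    have h7 : (⌊|δ'| * (M / q) + η⌋₊ : ℝ) ≤ |δ'| * (M / q) + η := Nat.floor_le (by positivity)
    refine mul_le_mul (by linarith) ?_ (by positivity) (by positivity)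
    exact mul_le_mul_of_nonneg_right (by linarith) hqR.le
  refine hA.trans ?_
  obtain ⟨δ, hδ⟩ : ∃ δ, δ = |δ'| := ⟨_, rfl⟩
  rw [← hδ] at hδ0 hδη hδ2 ⊢
  have e1 : (η / δ + 1) * ((δ * (M / q) + η + 1) * q) =
      (η / δ * δ) * ((M / q) * q) + δ * ((M / q) * q) + (η / δ + 1) * ((η + 1) * q) := by ring
  have e2 : η / δ * δ = η := div_mul_cancel₀ η hδ0.ne'
  have e3 : (M : ℝ) / q * q = M := div_mul_cancel₀ _ hqR.ne'
  rw [e1, e2, e3]
  have h4 : 1 ≤ η / δ := by rwa [le_div_iff₀ hδ0, one_mul]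
  have h5 : 1 / δ ≤ 3 * (q * s) := by
    rw [div_le_iff₀ hδ0]
    exact hδ2
  have h6 : η / δ ≤ η * (3 * (q * s)) := by
    have : η / δ = η * (1 / δ) := by ring
    rw [this]
    exact mul_le_mul_of_nonneg_left h5 hη0.le
  have h7 : (η / δ + 1) * ((η + 1) * q) ≤ (2 * (η * (3 * (q * s)))) * (2 * q) := by
    refine mul_le_mul (by linarith) ?_ (by positivity) (by positivity)
    exact mul_le_mul_of_nonneg_right (by linarith) hqR.le
  have h8 : (2 * (η * (3 * (q * s)))) * (2 * q) = η * (12 * s * (q : ℝ) ^ 2) := by ring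
  have h9 : (12 * s * (q : ℝ) ^ 2) ≤ M := by
    refine le_trans ?_ hM
    refine mul_le_mul_of_nonneg_left ?_ (by positivity)
    exact pow_le_pow_left₀ hqR.le hqQR 2
  have h10 : η * (12 * s * (q : ℝ) ^ 2) ≤ η * M := mul_le_mul_of_nonneg_left h9 hη0.le
  have h11 : δ * (M : ℝ) ≤ η * M := mul_le_mul_of_nonneg_right hδη (Nat.cast_nonneg M)
  linarith

end Pool.Agent.H852.NB
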